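import Pool.Agent.W957.CH.StmB

/-! Project CH (helper957), CH-HUB. -/

set_option autoImplicit false

namespace Pool.Agent.W119.CH

open Finset Pool.Agent.W957.CH

theorem mem_nbr {V : Type} {G : SimpleGraph V} {A P : Finset V} {w : V} :
    w ∈ nbr G A P ↔ w ∈ A ∧ w ∉ P ∧ ∃ p ∈ P, G.Adj p w := by
  classical
  unfold nbr
  rw [mem_filter]

theorem no4 {V : Type} [DecidableEq V] {X : Cx V} (hX : Ok X) {x1 x2 x3 x4 : V}
    (m1 : x1 ∈ X.A) (m2 : x2 ∈ X.A) (m3 : x3 ∈ X.A) (m4 : x4 ∈ X.A)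
    (e12 : X.G.Adj x1 x2) (e23 : X.G.Adj x2 x3) (e34 : X.G.Adj x3 x4) (e41 : X.G.Adj x4 x1)
    (n13 : x1 ≠ x3) (n24 : x2 ≠ x4) : False := by
  have hc : Cyc X.G [x1, x2, x3, x4] := by
    refine ⟨by simp, ⟨?_, ?_⟩, ?_⟩
    · simp [e12.ne, n13, e41.ne.symm, e23.ne, n24, e34.ne]
    · simp [e12, e23, e34]
    · intro a b ha hb
      simp at ha hb
      subst ha; subst hb
      exact e41
  have := hX.chd _ hc (by
    intro x hx
    simp at hx
    rcases hx with h | h | h | h <;> subst h <;> assumption)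
  have h4 : [x1, x2, x3, x4].length = 4 := rfl
  rw [h4, hX.g4] at this
  omega

/-- Hall's condition: every index has at most one bad value -/
theorem assign (h : ℕ) (_hh : 2 ≤ h) (Bad : Fin h → Fin (h + 1) → Prop)
    (hb : ∀ j i i', Bad j i → Bad j i' → i = i') :
    ∃ f : Fin h → Fin (h + 1), Function.Injective f ∧ ∀ j, ¬ Bad j (f j) := by
  classical
  let t : Fin h → Finset (Fin (h + 1)) := fun j => univ.filter (fun i => ¬ Bad j i)
  have ht : ∀ j, h ≤ (t j).card := by
    intro j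
    have h1 : (univ.filter (fun i => Bad j i)).card ≤ 1 := by
      rw [card_le_one]
      intro x hx y hy
      exact hb j x y (mem_filter.1 hx).2 (mem_filter.1 hy).2
    have h2 := card_filter_add_card_filter_not (s := (univ : Finset (Fin (h + 1)))) (fun i => Bad j i)
    rw [card_univ, Fintype.card_fin] at h2
    change h ≤ (univ.filter (fun i => ¬ Bad j i)).card
    omega
  obtain ⟨f, hf, hft⟩ := (Finset.all_card_le_biUnion_card_iff_exists_injective t).1 (by
    intro s
    rcases s.eq_empty_or_nonempty with hs | ⟨j, hj⟩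
    · subst hs; simp
    · calc s.card ≤ h := by simpa using card_le_univ s
        _ ≤ (t j).card := ht j
        _ ≤ _ := card_le_card (subset_biUnion_of_mem t hj))
  exact ⟨f, hf, fun j => (mem_filter.1 (hft j)).2⟩

theorem CA_symm {V : Type} {l : List V} {x y : V} (h : CA l x y) : CA l y x := Or.symm h

theorem t_HUB (h1 : S_BLK) (h2 : S_CH2L) : S_HUB := by
  classical
  intro V _ X h a S v hX hh _ hainj haA hS hN hD haC hfan ⟨w, hwA, hwa, hwC⟩
  have h0 : 0 < h := by omega
  let nx : Fin h → Fin h := fun j => ⟨(j.1 + 1) % h, Nat.mod_lt _ h0⟩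
  let nx2 : Fin h → Fin h := fun j => ⟨(j.1 + 2) % h, Nat.mod_lt _ h0⟩
  have hnx : ∀ j, nx j ≠ j := by
    intro j hj
    have h3 := congrArg Fin.val hj
    have h4 : (j.1 + 1) % h = j.1 := h3
    have h5 := j.2
    rcases Nat.lt_or_ge (j.1 + 1) h with h6 | h6
    · rw [Nat.mod_eq_of_lt h6] at h4; omega
    · have h7 : j.1 + 1 = h := by omega
      rw [h7, Nat.mod_self] at h4; omega
  have hSA : ∀ i, S i ⊆ X.A := fun i => (hS i).1
  have hSv : ∀ i i', v i ∉ S i' := by
    intro i i' hv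
    by_cases hii : i = i'
    · subst hii; exact (hS i).2.2.2.1 hv
    · exact disjoint_left.1 (hD i i' hii) (mem_insert_self _ _) (mem_insert_of_mem hv)
  have haS : ∀ i j, a j ∉ S i := fun i j hm => haC i j (mem_insert_of_mem hm)
  have hcon : ∀ i j, ∃ x ∈ S i, X.G.Adj x (a j) := by
    intro i j
    have h3 : a j ∈ nbr X.G X.A (S i) := by
      rw [hN i]
      exact mem_insert_of_mem (mem_image_of_mem a (mem_univ j))
    exact (mem_nbr.1 h3).2.2
  have hvcon : ∀ i, ∃ x ∈ S i, X.G.Adj x (v i) := by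
    intro i
    have h3 : v i ∈ nbr X.G X.A (S i) := by
      rw [hN i]
      exact mem_insert_self _ _
    exact (mem_nbr.1 h3).2.2
  -- assignment
  obtain ⟨f, hf, hfb⟩ := assign h hh
    (fun j i => ∀ x ∈ S i, ∀ y ∈ S i, X.G.Adj x (a j) → X.G.Adj y (a (nx j)) → x = y) (by
      intro j i i' hb hb'
      by_contra hne
      obtain ⟨x, hx, hxa⟩ := hcon i j
      obtain ⟨y, hy, hya⟩ := hcon i (nx j)
      obtain ⟨x', hx', hxa'⟩ := hcon i' j
      obtain ⟨y', hy', hya'⟩ := hcon i' (nx j)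
      have e := hb x hx y hy hxa hya
      have e' := hb' x' hx' y' hy' hxa' hya'
      subst e; subst e'
      have hxx : x ≠ x' := by
        intro hxx; subst hxx
        exact disjoint_left.1 (hD i i' hne) (mem_insert_of_mem hx) (mem_insert_of_mem hx')
      exact no4 hX (haA j) (hSA i hx) (haA (nx j)) (hSA i' hx') hxa.symm hya hya'.symm hxa'
        (fun e => hnx j (hainj e).symm) hxx)
  -- paths
  have key : ∀ j : Fin h, ∃ (p : List V) (z : V), Pth X.G p ∧ (∀ u ∈ p, u ∈ insert (v (f j)) (S (f j))) ∧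
      (∃ x, p.head? = some x ∧ X.G.Adj (a j) x) ∧
      (∃ y, p.getLast? = some y ∧ X.G.Adj y (a (nx j))) ∧ z ∈ p ∧ z ∈ S (f j) ∧
      X.G.Adj z (a (nx2 j)) := by
    intro j
    have h3 := hfb j
    push Not at h3
    obtain ⟨x, hx, y, hy, hxa, hya, hxy⟩ := h3
    obtain ⟨z, hz, hza⟩ := hcon (f j) (nx2 j)
    by_cases hzx : z = x
    · subst hzx
      obtain ⟨l, hl, hlS⟩ := (hS (f j)).2.2.2.2.2 z hx y hy
      exact ⟨l, z, hl.1, fun u hu => mem_insert_of_mem (hlS u hu), ⟨z, hl.2.1, hxa.symm⟩,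
        ⟨y, hl.2.2, hya⟩, List.mem_of_head? hl.2.1, hz, hza⟩
    · by_cases hzy : z = y
      · subst hzy
        obtain ⟨l, hl, hlS⟩ := (hS (f j)).2.2.2.2.2 x hx z hy
        exact ⟨l, z, hl.1, fun u hu => mem_insert_of_mem (hlS u hu), ⟨x, hl.2.1, hxa.symm⟩,
          ⟨z, hl.2.2, hya⟩, List.mem_of_getLast? hl.2.2, hz, hza⟩
      · obtain ⟨l1, l2, hl, hlC⟩ := hfan (f j) x (mem_insert_of_mem hx) y (mem_insert_of_mem hy)
          z (mem_insert_of_mem hz) hxy (Ne.symm hzx) (Ne.symm hzy)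
        exact ⟨l1 ++ z :: l2, z, hl.1, hlC, ⟨x, hl.2.1, hxa.symm⟩, ⟨y, hl.2.2, hya⟩,
          by simp, hz, hza⟩
  choose p z hpP hpC hpx hpy hzp hzS hza using key
  -- the cycle
  let ext : (j : ℕ) → Fin h := fun j => if hj : j < h then ⟨j, hj⟩ else ⟨0, h0⟩
  have hext : ∀ j (hj : j < h), ext j = ⟨j, hj⟩ := fun j hj => by simp [ext, hj]
  have hext' : ∀ j : Fin h, ext j.1 = j := fun j => by simp [ext]
  obtain ⟨l, hcyc, hlm, hCA⟩ := h1 V X.G h (fun j => a (ext j)) (fun j => p (ext j)) hh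
    (by
      intro i j hi hj hij
      have h3 := hainj hij
      rw [hext i hi, hext j hj] at h3
      exact congrArg Fin.val h3)
    (fun j _ => hpP _)
    (by
      intro i j hi hj hij x hx hx'
      have h3 : f (ext i) ≠ f (ext j) := by
        intro h4
        have h5 := hf h4
        rw [hext i hi, hext j hj] at h5
        exact hij (congrArg Fin.val h5)
      exact disjoint_left.1 (hD _ _ h3) (hpC _ x hx) (hpC _ x hx'))
    (fun i j _ _ hm => haC _ _ (hpC _ _ hm))
    (fun j _ => hpx _)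
    (by
      intro j hj
      obtain ⟨y, hy, hya⟩ := hpy (ext j)
      refine ⟨y, hy, ?_⟩
      have h3 : ext ((j + 1) % h) = nx (ext j) := by
        rw [hext _ (Nat.mod_lt _ h0), hext j hj]
      rw [h3]
      exact hya)
  -- the region
  set P : Finset V := univ.biUnion (fun j : Fin h => S (f j)) with hP
  have hmP : ∀ {x : V}, x ∈ P ↔ ∃ j, x ∈ S (f j) := by
    intro x; rw [hP]; simp
  have hPA : P ⊆ X.A := by
    intro x hx
    obtain ⟨j, hj⟩ := hmP.1 hx
    exact hSA _ hj
  have hPne : P.Nonempty := by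
    obtain ⟨x, hx⟩ := (hS (f ⟨0, h0⟩)).2.2.2.2.1
    exact ⟨x, hmP.2 ⟨_, hx⟩⟩
  have hPB : Disjoint P X.B := by
    rw [disjoint_left]
    intro x hx hxB
    obtain ⟨j, hj⟩ := hmP.1 hx
    exact disjoint_left.1 (hS (f j)).2.1 hj hxB
  have hnbr : nbr X.G X.A P ⊆ univ.image a ∪ univ.image (fun j : Fin h => v (f j)) := by
    intro x hx
    obtain ⟨hxA, hxP, q, hq, hqx⟩ := mem_nbr.1 hx
    obtain ⟨j, hj⟩ := hmP.1 hq
    have h3 : x ∈ nbr X.G X.A (S (f j)) :=
      mem_nbr.2 ⟨hxA, fun h4 => hxP (hmP.2 ⟨j, h4⟩), q, hj, hqx⟩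
    rw [hN, mem_insert] at h3
    rcases h3 with h3 | h3
    · exact mem_union_right _ (mem_image.2 ⟨j, mem_univ _, h3.symm⟩)
    · exact mem_union_left _ h3
  have hncard : (nbr X.G X.A P).card ≤ 2 * h := by
    refine (card_le_card hnbr).trans ((card_union_le _ _).trans ?_)
    have h3 : (univ.image a).card ≤ h := by simpa using card_image_le (s := univ) (f := a)
    have h4 : (univ.image (fun j : Fin h => v (f j))).card ≤ h := by
      simpa using card_image_le (s := univ) (f := fun j : Fin h => v (f j))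
    omega
  have hPne' : P ∪ nbr X.G X.A P ≠ X.A := by
    intro he
    have h3 : w ∈ P ∪ nbr X.G X.A P := by rw [he]; exact hwA
    rcases mem_union.1 h3 with h4 | h4
    · obtain ⟨j, hj⟩ := hmP.1 h4
      exact hwC _ (mem_insert_of_mem hj)
    · rcases mem_union.1 (hnbr h4) with h5 | h5
      · exact hwa h5
      · obtain ⟨j, -, hj⟩ := mem_image.1 h5
        exact hwC (f j) (by rw [← hj]; exact mem_insert_self _ _)
  have hlP : ∀ x ∈ l, x ∈ P ∪ nbr X.G X.A P := by
    intro x hx
    rcases (hlm x).1 hx with ⟨j, hj, rfl⟩ | ⟨j, hj, hxp⟩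
    · refine mem_union_right _ (mem_nbr.2 ⟨haA _, ?_, ?_⟩)
      · intro h3
        obtain ⟨j', hj'⟩ := hmP.1 h3
        exact haS _ _ hj'
      · obtain ⟨y, hy, hya⟩ := hcon (f ⟨0, h0⟩) (ext j)
        exact ⟨y, hmP.2 ⟨_, hy⟩, hya⟩
    · have h3 := hpC _ x hxp
      rcases mem_insert.1 h3 with h4 | h4
      · refine mem_union_right _ (mem_nbr.2 ⟨?_, ?_, ?_⟩)
        · rw [h4]; exact (hS _).2.2.1
        · intro h5
          obtain ⟨j', hj'⟩ := hmP.1 h5
          rw [h4] at hj'
          exact hSv _ _ hj'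
        · obtain ⟨y, hy, hya⟩ := hvcon (f (ext j))
          exact ⟨y, hmP.2 ⟨_, hy⟩, by rw [h4]; exact hya⟩
      · exact mem_union_left _ (hmP.2 ⟨_, h4⟩)
  have hlA : ∀ x ∈ l, x ∈ X.A := by
    intro x hx
    rcases mem_union.1 (hlP x hx) with h3 | h3
    · exact hPA h3
    · exact (mem_nbr.1 h3).1
  have hreg := (hX.reg P hPA hPne hPB hPne').2 l hcyc hlP
  have hchd := hX.chd l hcyc hlA
  rcases Nat.lt_or_ge h 3 with hh3 | hh3
  · have h3 : X.F (X.k l.length) ≤ X.F 4 := hX.Fmono (by omega)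
    rw [hX.F4] at h3
    omega
  · have h3 : X.F (X.k l.length) ≤ X.F (2 * h) := hX.Fmono (by omega)
    have h4 := hX.F2 h
    obtain ⟨hc1, hc2⟩ := h2 V X.G l hcyc
    -- the chords
    have hzl : ∀ j, z j ∈ l := fun j => (hlm _).2 (Or.inr ⟨j.1, j.2, by rw [hext']; exact hzp j⟩)
    have hal : ∀ j, a j ∈ l := fun j => (hlm _).2 (Or.inl ⟨j.1, j.2, by rw [hext']⟩)
    have hnCA : ∀ j, ¬ CA l (z j) (a (nx2 j)) := by
      intro j hca
      have h5 := hCA j.1 j.2 (z j) (by rw [hext']; exact hzp j) (nx2 j).1 (nx2 j).2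
        (by rw [hext']; exact hca)
      have hj := j.2
      have h6 : (nx2 j).1 = (j.1 + 2) % h := rfl
      have h7 : (j.1 + 2) % h ≠ j.1 ∧ (j.1 + 2) % h ≠ (j.1 + 1) % h := by
        rcases Nat.lt_or_ge (j.1 + 2) h with h8 | h8
        · rw [Nat.mod_eq_of_lt h8, Nat.mod_eq_of_lt (by omega : j.1 + 1 < h)]
          omega
        · rcases Nat.lt_or_ge (j.1 + 1) h with h9 | h9
          · have h10 : j.1 + 2 = h := by omega
            rw [h10, Nat.mod_self, Nat.mod_eq_of_lt h9]
            omega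
          · have h10 : j.1 + 1 = h := by omega
            have h11 : j.1 + 2 = 1 + h := by omega
            rw [h10, Nat.mod_self, h11, Nat.add_mod_right, Nat.mod_eq_of_lt (by omega : 1 < h)]
            omega
      rw [h6] at h5
      rcases h5 with ⟨h5, -⟩ | ⟨h5, -⟩
      · exact h7.1 h5
      · exact h7.2 h5
    have hzinj : Function.Injective z := by
      intro i j hij
      by_contra hne
      have h5 : f i ≠ f j := fun h6 => hne (hf h6)
      exact disjoint_left.1 (hD _ _ h5) (mem_insert_of_mem (hzS i))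
        (by rw [hij]; exact mem_insert_of_mem (hzS j))
    have haz : ∀ i j, a i ≠ z j := by
      intro i j hij
      exact haS (f j) i (by rw [hij]; exact hzS j)
    have hcount : 2 * h ≤ ((l.toFinset ×ˢ l.toFinset).filter
        (fun p => X.G.Adj p.1 p.2 ∧ ¬ CA l p.1 p.2)).card := by
      have h5 : (univ.image (fun j : Fin h => (z j, a (nx2 j))) ∪
          univ.image (fun j : Fin h => (a (nx2 j), z j))) ⊆ ((l.toFinset ×ˢ l.toFinset).filter
        (fun p => X.G.Adj p.1 p.2 ∧ ¬ CA l p.1 p.2)) := by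
        intro q hq
        rcases mem_union.1 hq with hq | hq
        · obtain ⟨j, -, rfl⟩ := mem_image.1 hq
          refine mem_filter.2 ⟨mem_product.2 ⟨List.mem_toFinset.2 (hzl j), List.mem_toFinset.2 (hal _)⟩,
            hza j, hnCA j⟩
        · obtain ⟨j, -, rfl⟩ := mem_image.1 hq
          refine mem_filter.2 ⟨mem_product.2 ⟨List.mem_toFinset.2 (hal _), List.mem_toFinset.2 (hzl j)⟩,
            (hza j).symm, fun hca => hnCA j (CA_symm hca)⟩
      refine le_trans ?_ (card_le_card h5)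
      rw [card_union_of_disjoint]
      · rw [card_image_of_injective _ (fun i j hij => hzinj (congrArg Prod.fst hij)),
          card_image_of_injective _ (fun i j hij => hzinj (congrArg Prod.snd hij))]
        simp
        omega
      · rw [disjoint_left]
        intro q hq hq'
        obtain ⟨j, -, rfl⟩ := mem_image.1 hq
        obtain ⟨i, -, hi⟩ := mem_image.1 hq'
        exact haz _ _ (congrArg Prod.fst hi)
    have hch : 2 * h ≤ ch2 X.G l.toFinset := by
      unfold ch2
      rw [hc1, hc2]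
      omega
    omega

end Pool.Agent.W119.CH
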